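import Pool.Agent.Helper89.TT.Basic

set_option autoImplicit false

open Finset

namespace Pool.Agent.Helper89.TT

/-- the small gcds of one relation -/
theorem lla_g {p p' s s' G P Q : ℕ} (hp : 0 < p) (h : Rel p p' s s' G P Q) :
    Nat.gcd p P ≤ G ∧ Nat.gcd p' P ≤ G ∧ Nat.gcd p Q ≤ G ∧ Nat.gcd p' Q ≤ G ∧
      (Nat.gcd P Q) ^ 2 ≤ 2 * G := by
  obtain ⟨hP, hQ, x, x', hx, hx', h1, h2, h3⟩ := h
  have hpos : 0 < Nat.gcd (p * x) (p' * x') := Nat.gcd_pos_of_pos_left _ (Nat.mul_pos hp hx)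
  have hs : ∀ d : ℕ, d ∣ p * x → d ∣ p' * x' → d ≤ G := fun d a b =>
    le_trans (Nat.le_of_dvd hpos (Nat.dvd_gcd a b)) h3
  refine ⟨?_, ?_, ?_, ?_, ?_⟩
  · have b : Nat.gcd p P ∣ p * x := dvd_mul_of_dvd_left (Nat.gcd_dvd_left _ _) _
    have a : Nat.gcd p P ∣ s * P ^ 2 :=
      dvd_mul_of_dvd_right (dvd_pow (Nat.gcd_dvd_right _ _) two_ne_zero) _
    rw [h1] at a
    exact hs _ b ((Nat.dvd_add_right b).mp a)
  · have b : Nat.gcd p' P ∣ p' * x' := dvd_mul_of_dvd_left (Nat.gcd_dvd_left _ _) _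
    have a : Nat.gcd p' P ∣ s * P ^ 2 :=
      dvd_mul_of_dvd_right (dvd_pow (Nat.gcd_dvd_right _ _) two_ne_zero) _
    rw [h1] at a
    exact hs _ ((Nat.dvd_add_left b).mp a) b
  · have b : Nat.gcd p Q ∣ p * x := dvd_mul_of_dvd_left (Nat.gcd_dvd_left _ _) _
    have a : Nat.gcd p Q ∣ s' * Q ^ 2 :=
      dvd_mul_of_dvd_right (dvd_pow (Nat.gcd_dvd_right _ _) two_ne_zero) _
    refine hs _ b ?_
    have c := b
    rw [← h2] at c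
    exact (Nat.dvd_add_right a).mp c
  · have b : Nat.gcd p' Q ∣ p' * x' := dvd_mul_of_dvd_left (Nat.gcd_dvd_left _ _) _
    have a : Nat.gcd p' Q ∣ s' * Q ^ 2 :=
      dvd_mul_of_dvd_right (dvd_pow (Nat.gcd_dvd_right _ _) two_ne_zero) _
    refine hs _ ?_ b
    rw [← h2]
    exact dvd_add a b
  · have a : (Nat.gcd P Q) ^ 2 ∣ s * P ^ 2 :=
      dvd_mul_of_dvd_right (pow_dvd_pow_of_dvd (Nat.gcd_dvd_left _ _) 2) _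
    have b : (Nat.gcd P Q) ^ 2 ∣ s' * Q ^ 2 :=
      dvd_mul_of_dvd_right (pow_dvd_pow_of_dvd (Nat.gcd_dvd_right _ _) 2) _
    have c : (Nat.gcd P Q) ^ 2 ∣ 2 * (p * x) := by
      have e : 2 * (p * x) = s * P ^ 2 + s' * Q ^ 2 := by omega
      rw [e]; exact dvd_add a b
    have d : (Nat.gcd P Q) ^ 2 ∣ 2 * (p' * x') := by
      have e : s * P ^ 2 = s' * Q ^ 2 + 2 * (p' * x') := by omega
      rw [e] at a
      exact (Nat.dvd_add_right b).mp a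
    have e := Nat.dvd_gcd c d
    rw [Nat.gcd_mul_left] at e
    refine le_trans (Nat.le_of_dvd (by omega) e) ?_
    omega

/-- the complementary divisor -/
theorem lla_quot {n X Z : ℤ} {n₁ : ℕ} {n₂ : ℤ} (hn : n ≠ 0) (h1 : n₁ = Int.gcd n X)
    (h2 : n = n₁ * n₂) (h : n ∣ X * Z) : n₂ ∣ Z := by
  have h0 : 0 < Int.gcd n X := Int.gcd_pos_of_ne_zero_left _ hn
  obtain ⟨m', x', hc, hm, hx⟩ := Int.exists_gcd_one h0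
  rw [← h1] at hm hx h0
  have h3 : (n₁ : ℤ) ≠ 0 := by exact_mod_cast h0.ne'
  have e : m' = n₂ := by
    apply mul_right_cancel₀ h3
    rw [← hm, h2, mul_comm]
  have h4 : m' ∣ x' * Z := by
    have h5 : (n₁ : ℤ) * m' ∣ n₁ * (x' * Z) := by
      have e1 : (n₁ : ℤ) * m' = n := by rw [hm, mul_comm]
      have e2 : (n₁ : ℤ) * (x' * Z) = X * Z := by rw [hx]; ring
      rw [e1, e2]; exact h
    exact (mul_dvd_mul_iff_left h3).mp h5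
  rw [← e]
  exact Int.dvd_of_dvd_mul_right_of_gcd_one h4 hc

/-- the product of the two differences -/
theorem lla_prod {p p' s s' G P Q R T : ℕ} (h1 : Rel p p' s s' G P Q) (h2 : Rel p p' s s' G R T) :
    ((p : ℤ) * p') ∣ ((P : ℤ) * T - R * Q) * ((s : ℤ) * s' * ((P : ℤ) * T + R * Q)) := by
  obtain ⟨-, -, x, x', -, -, a1, a2, -⟩ := h1
  obtain ⟨-, -, y, y', -, -, b1, b2, -⟩ := h2
  have a1' : (s : ℤ) * P ^ 2 = p * x + p' * x' := by exact_mod_cast a1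
  have a2' : (s' : ℤ) * Q ^ 2 + p' * x' = p * x := by exact_mod_cast a2
  have b1' : (s : ℤ) * R ^ 2 = p * y + p' * y' := by exact_mod_cast b1
  have b2' : (s' : ℤ) * T ^ 2 + p' * y' = p * y := by exact_mod_cast b2
  refine ⟨2 * (y * x' - x * y'), ?_⟩
  have e : ((P : ℤ) * T - R * Q) * ((s : ℤ) * s' * ((P : ℤ) * T + R * Q)) =
      (s * P ^ 2) * (s' * T ^ 2) - (s * R ^ 2) * (s' * Q ^ 2) := by ring
  have a3 : (s' : ℤ) * Q ^ 2 = p * x - p' * x' := by linarith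
  have b3 : (s' : ℤ) * T ^ 2 = p * y - p' * y' := by linarith
  rw [e, a1', b1', a3, b3]
  ring

theorem st_LLA : ST_LLA := by
  intro S G p p' s s' P₁ Q₁ P₂ Q₂ P₃ Q₃ hs hsS hs' hs'S hG hp hp' hcop R1 R2 R3 hgcd
  by_cases hX : (P₂ : ℤ) * Q₃ - P₃ * Q₂ = 0
  · exact Or.inl hX
  right
  obtain ⟨g1, g2, -, -, g5⟩ := lla_g hp R1
  obtain ⟨-, -, g3, g4, -⟩ := lla_g hp R2
  have hP1 : 0 < P₁ := R1.1
  have hQ1 : 0 < Q₁ := R1.2.1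
  have hQ2 : 0 < Q₂ := R2.2.1
  obtain ⟨n₁, hn₁⟩ : ∃ n₁, n₁ = Int.gcd ((p : ℤ) * p') ((P₁ : ℤ) * Q₂ - P₂ * Q₁) := ⟨_, rfl⟩
  have hn0 : ((p : ℤ) * p') ≠ 0 := by positivity
  have hn₁0 : 0 < n₁ := by rw [hn₁]; exact Int.gcd_pos_of_ne_zero_left _ hn0
  have hn₁' : n₁ = Int.gcd ((p : ℤ) * p') ((P₁ : ℤ) * Q₃ - P₃ * Q₁) := by rw [hn₁, hgcd]
  have hd : n₁ ∣ p * p' := by
    have h : (n₁ : ℤ) ∣ (p : ℤ) * p' := by rw [hn₁]; exact Int.gcd_dvd_left _ _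
    exact_mod_cast h
  obtain ⟨n₂, hn₂⟩ := hd
  have hn₂' : (p : ℤ) * p' = (n₁ : ℤ) * (n₂ : ℤ) := by exact_mod_cast hn₂
  have hn₂0 : 0 < n₂ := by
    rcases Nat.eq_zero_or_pos n₂ with h | h
    · rw [h, mul_zero] at hn₂
      have := Nat.mul_pos hp hp'
      omega
    · exact h
  -- divisibilities
  have d12 : (n₁ : ℤ) ∣ (P₁ : ℤ) * Q₂ - P₂ * Q₁ := by rw [hn₁]; exact Int.gcd_dvd_right _ _
  have d13 : (n₁ : ℤ) ∣ (P₁ : ℤ) * Q₃ - P₃ * Q₁ := by rw [hn₁']; exact Int.gcd_dvd_right _ _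
  have e12 : (n₂ : ℤ) ∣ (s : ℤ) * s' * ((P₁ : ℤ) * Q₂ + P₂ * Q₁) :=
    lla_quot hn0 hn₁ hn₂' (lla_prod R1 R2)
  have e13 : (n₂ : ℤ) ∣ (s : ℤ) * s' * ((P₁ : ℤ) * Q₃ + P₃ * Q₁) :=
    lla_quot hn0 hn₁' hn₂' (lla_prod R1 R3)
  obtain ⟨X, hXd⟩ : ∃ X : ℤ, X = (P₂ : ℤ) * Q₃ - P₃ * Q₂ := ⟨_, rfl⟩
  rw [← hXd] at hX ⊢
  have f1 : (n₁ : ℤ) ∣ (s : ℤ) * s' * (P₁ * X) := by
    have h := dvd_sub (dvd_mul_of_dvd_right d13 ((s : ℤ) * s' * P₂))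
      (dvd_mul_of_dvd_right d12 ((s : ℤ) * s' * P₃))
    have e : (s : ℤ) * s' * (P₁ * X) = (s : ℤ) * s' * P₂ * ((P₁ : ℤ) * Q₃ - P₃ * Q₁) -
        (s : ℤ) * s' * P₃ * ((P₁ : ℤ) * Q₂ - P₂ * Q₁) := by rw [hXd]; ring
    rw [e]; exact h
  have f2 : (n₁ : ℤ) ∣ (s : ℤ) * s' * (Q₁ * X) := by
    have h := dvd_sub (dvd_mul_of_dvd_right d13 ((s : ℤ) * s' * Q₂))
      (dvd_mul_of_dvd_right d12 ((s : ℤ) * s' * Q₃))
    have e : (s : ℤ) * s' * (Q₁ * X) = (s : ℤ) * s' * Q₂ * ((P₁ : ℤ) * Q₃ - P₃ * Q₁) -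
        (s : ℤ) * s' * Q₃ * ((P₁ : ℤ) * Q₂ - P₂ * Q₁) := by rw [hXd]; ring
    rw [e]; exact h
  have f3 : (n₂ : ℤ) ∣ (s : ℤ) * s' * (P₁ * X) := by
    have h := dvd_sub (dvd_mul_of_dvd_right e13 (P₂ : ℤ)) (dvd_mul_of_dvd_right e12 (P₃ : ℤ))
    have e : (s : ℤ) * s' * (P₁ * X) = (P₂ : ℤ) * ((s : ℤ) * s' * ((P₁ : ℤ) * Q₃ + P₃ * Q₁)) -
        (P₃ : ℤ) * ((s : ℤ) * s' * ((P₁ : ℤ) * Q₂ + P₂ * Q₁)) := by rw [hXd]; ring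
    rw [e]; exact h
  have f4 : (n₂ : ℤ) ∣ (s : ℤ) * s' * (Q₁ * X) := by
    have h := dvd_sub (dvd_mul_of_dvd_right e12 (Q₃ : ℤ)) (dvd_mul_of_dvd_right e13 (Q₂ : ℤ))
    have e : (s : ℤ) * s' * (Q₁ * X) = (Q₃ : ℤ) * ((s : ℤ) * s' * ((P₁ : ℤ) * Q₂ + P₂ * Q₁)) -
        (Q₂ : ℤ) * ((s : ℤ) * s' * ((P₁ : ℤ) * Q₃ + P₃ * Q₁)) := by rw [hXd]; ring
    rw [e]; exact h
  -- the gcd of `P₁` and `Q₁`
  obtain ⟨g, hg⟩ : ∃ g : ℕ, g = Nat.gcd P₁ Q₁ := ⟨_, rfl⟩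
  rw [← hg] at g5
  have hg0 : 0 < g := by rw [hg]; exact Nat.gcd_pos_of_pos_left _ hP1
  have hgG : g ≤ 2 * G := by nlinarith
  have hbez : (g : ℤ) = P₁ * Nat.gcdA P₁ Q₁ + Q₁ * Nat.gcdB P₁ Q₁ := by
    rw [hg]; exact Nat.gcd_eq_gcd_ab P₁ Q₁
  have hcomb : ∀ d : ℤ, d ∣ (s : ℤ) * s' * (P₁ * X) → d ∣ (s : ℤ) * s' * (Q₁ * X) →
      d ∣ (s : ℤ) * s' * (g * X) := by
    intro d h1 h2
    have h := dvd_add (dvd_mul_of_dvd_left h1 (Nat.gcdA P₁ Q₁))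
      (dvd_mul_of_dvd_left h2 (Nat.gcdB P₁ Q₁))
    have e : (s : ℤ) * s' * (g * X) = (s : ℤ) * s' * (P₁ * X) * Nat.gcdA P₁ Q₁ +
        (s : ℤ) * s' * (Q₁ * X) * Nat.gcdB P₁ Q₁ := by rw [hbez]; ring
    rw [e]; exact h
  have k1 : n₁ ∣ s * s' * (g * X.natAbs) := by
    have h := Int.natAbs_dvd_natAbs.mpr (hcomb _ f1 f2)
    simpa [Int.natAbs_mul] using h
  have k2 : n₂ ∣ s * s' * (g * X.natAbs) := by
    have h := Int.natAbs_dvd_natAbs.mpr (hcomb _ f3 f4)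
    simpa [Int.natAbs_mul] using h
  have hXpos : 0 < X.natAbs := Int.natAbs_pos.mpr hX
  have k3 : Nat.lcm n₁ n₂ ≤ s * s' * (g * X.natAbs) :=
    Nat.le_of_dvd (by positivity) (Nat.lcm_dvd k1 k2)
  -- the gcd of the two divisors
  have m1 : Nat.gcd n₁ n₂ ∣ 2 * (s * s') * (P₁ * Q₂) := by
    have h1 : ((Nat.gcd n₁ n₂ : ℕ) : ℤ) ∣ (s : ℤ) * s' * ((P₁ : ℤ) * Q₂ - P₂ * Q₁) :=
      dvd_mul_of_dvd_right (dvd_trans (by exact_mod_cast Nat.gcd_dvd_left n₁ n₂) d12) _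
    have h2 : ((Nat.gcd n₁ n₂ : ℕ) : ℤ) ∣ (s : ℤ) * s' * ((P₁ : ℤ) * Q₂ + P₂ * Q₁) :=
      dvd_trans (by exact_mod_cast Nat.gcd_dvd_right n₁ n₂) e12
    have h3 := dvd_add h1 h2
    have e : (s : ℤ) * s' * ((P₁ : ℤ) * Q₂ - P₂ * Q₁) + (s : ℤ) * s' * ((P₁ : ℤ) * Q₂ + P₂ * Q₁) =
        ((2 * (s * s') * (P₁ * Q₂) : ℕ) : ℤ) := by push_cast; ring
    rw [e] at h3
    exact_mod_cast h3
  have m2 : Nat.gcd n₁ n₂ ∣ p * p' := by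
    rw [hn₂]; exact dvd_mul_of_dvd_left (Nat.gcd_dvd_left _ _) _
  have m3 : ∀ q : ℕ, 0 < q → Nat.gcd q P₁ ≤ G → Nat.gcd q Q₂ ≤ G →
      Nat.gcd (Nat.gcd n₁ n₂) q ≤ 2 * (S * S) * (G * G) := by
    intro q hq h1 h2
    have h3 : Nat.gcd (Nat.gcd n₁ n₂) q ∣ Nat.gcd q (2 * (s * s') * (P₁ * Q₂)) :=
      Nat.dvd_gcd (Nat.gcd_dvd_right _ _) (dvd_trans (Nat.gcd_dvd_left _ _) m1)
    have h4 : Nat.gcd q (2 * (s * s') * (P₁ * Q₂)) ∣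
        2 * (s * s') * (Nat.gcd q P₁ * Nat.gcd q Q₂) := by
      refine dvd_trans (Nat.gcd_mul_right_dvd_mul_gcd _ _ _) ?_
      exact mul_dvd_mul (Nat.gcd_dvd_right _ _) (Nat.gcd_mul_right_dvd_mul_gcd _ _ _)
    have h5 : 0 < Nat.gcd q P₁ := Nat.gcd_pos_of_pos_left _ hq
    have h6 : 0 < Nat.gcd q Q₂ := Nat.gcd_pos_of_pos_left _ hq
    refine le_trans (Nat.le_of_dvd (by positivity) (dvd_trans h3 h4)) ?_
    gcongr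
  have m4 : Nat.gcd n₁ n₂ ≤ (2 * (S * S) * (G * G)) * (2 * (S * S) * (G * G)) := by
    have h1 : Nat.gcd (Nat.gcd n₁ n₂) (p * p') = Nat.gcd n₁ n₂ := Nat.gcd_eq_left m2
    rw [← h1, Nat.Coprime.gcd_mul _ hcop]
    exact Nat.mul_le_mul (m3 p hp g1 g3) (m3 p' hp' g2 g4)
  have m5 : p * p' ≤ (2 * (S * S) * (G * G)) * (2 * (S * S) * (G * G)) *
      (S * S * (2 * G * X.natAbs)) := by
    rw [hn₂, ← Nat.gcd_mul_lcm]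
    refine Nat.mul_le_mul m4 (le_trans k3 ?_)
    gcongr
  have m6 : (2 * (S * S) * (G * G)) * (2 * (S * S) * (G * G)) * (S * S * (2 * G * X.natAbs)) ≤
      64 * S ^ 8 * G ^ 5 * X.natAbs := by
    have hS1 : 1 ≤ S := le_trans hs hsS
    have h1 : (2 * (S * S) * (G * G)) * (2 * (S * S) * (G * G)) * (S * S * (2 * G * X.natAbs)) =
        8 * S ^ 6 * G ^ 5 * X.natAbs := by ring
    rw [h1]
    have h2 : S ^ 6 ≤ S ^ 8 := Nat.pow_le_pow_right hS1 (by norm_num)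
    gcongr
    norm_num
  have m7 := le_trans m5 m6
  have m8 : ((p * p' : ℕ) : ℤ) ≤ ((64 * S ^ 8 * G ^ 5 * X.natAbs : ℕ) : ℤ) := by exact_mod_cast m7
  push_cast at m8
  simpa using m8

end Pool.Agent.Helper89.TT
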